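import Pool.Agent.Lib.MP_1ef7cf_nt_b.Chain
import Pool.Agent.Lib.MP_1ef7cf_nt_c.Loc
import Pool.Agent.Lib.MP_1ef7cf_nt.Defs
import Pool.Agent.Lib.MP_1ef7cf_nt.Frob2

section

/-!
# Finiteness for the cyclotomic tower over a real quadratic field
-/

open IntermediateField Polynomial NumberField

namespace Pool.Agent.STb

open Pool.Agent.ST

lemma abel_of_quad {k : Type*} [Field k] [Algebra k ℝ] (F : IntermediateField k ℝ)
    (h : Module.finrank k F = 2) : IsAbelianGalois k F := by
  have hq : Algebra.IsQuadraticExtension k F := ⟨h⟩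
  have := charZero_base k
  exact { is_comm := inferInstance }

section

variable {K : Type*} [Field K] [NumberField K] [Algebra K ℝ]

lemma emb_cases (h2 : Module.finrank ℚ K = 2) {σ₂ : K →+* ℝ} (hσ : σ₂ ≠ algebraMap K ℝ)
    (φ : K →+* ℂ) : φ = Complex.ofRealHom.comp (algebraMap K ℝ) ∨ φ = Complex.ofRealHom.comp σ₂ := by
  classical
  by_contra hcon
  push Not at hcon
  have hcard := NumberField.Embeddings.card K ℂ
  rw [h2] at hcard
  have h12 : Complex.ofRealHom.comp σ₂ ≠ Complex.ofRealHom.comp (algebraMap K ℝ) := by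
    intro h
    apply hσ
    ext x
    have := congrArg (fun f : K →+* ℂ => f x) h
    exact Complex.ofReal_injective this
  have h3 : ({φ, Complex.ofRealHom.comp σ₂, Complex.ofRealHom.comp (algebraMap K ℝ)} :
      Finset (K →+* ℂ)).card = 3 := by
    rw [Finset.card_insert_of_notMem, Finset.card_insert_of_notMem, Finset.card_singleton]
    · simpa using h12
    · simp only [Finset.mem_insert, Finset.mem_singleton, not_or]
      exact ⟨hcon.2, hcon.1⟩
  have h4 := Finset.card_le_univ ({φ, Complex.ofRealHom.comp σ₂,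
    Complex.ofRealHom.comp (algebraMap K ℝ)} : Finset (K →+* ℂ))
  rw [h3, hcard] at h4
  omega

/-- the image of `K` in `ℝ` -/
noncomputable abbrev K0 (K : Type*) [Field K] [NumberField K] [Algebra K ℝ] :
    IntermediateField ℚ ℝ := rs (⊥ : IntermediateField K ℝ)

lemma mem_K0 {x : ℝ} : x ∈ K0 K ↔ ∃ a : K, algebraMap K ℝ a = x := by
  rw [mem_rs, IntermediateField.mem_bot]
  rfl

/-- `K` is isomorphic to its image. -/
noncomputable def toK0 (K : Type*) [Field K] [NumberField K] [Algebra K ℝ] : K →+* K0 K :=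
  (algebraMap K ℝ).codRestrict (K0 K) fun a => mem_K0.2 ⟨a, rfl⟩

lemma toK0_bij : Function.Bijective (toK0 K) := by
  refine ⟨(toK0 K).injective, ?_⟩
  rintro ⟨x, hx⟩
  obtain ⟨a, rfl⟩ := mem_K0.1 hx
  exact ⟨a, rfl⟩

noncomputable def K0equiv (K : Type*) [Field K] [NumberField K] [Algebra K ℝ] : K ≃ₗ[ℚ] K0 K :=
  LinearEquiv.ofBijective ((toK0 K).toAddMonoidHom.toRatLinearMap) toK0_bij

instance fd_K0 : FiniteDimensional ℚ (K0 K) := Module.Finite.equiv (K0equiv K)

lemma finrank_K0 (h2 : Module.finrank ℚ K = 2) : Module.finrank ℚ (K0 K) = 2 := by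
  rw [← (K0equiv K).finrank_eq, h2]

lemma TR_K0 (h2 : Module.finrank ℚ K = 2) {σ₂ : K →+* ℝ} (hσ : σ₂ ≠ algebraMap K ℝ) :
    TR (K0 K) := by
  intro φ x
  obtain ⟨a, rfl⟩ := (toK0_bij (K := K)).2 x
  rcases emb_cases h2 hσ (φ.comp (toK0 K)) with h | h
  · have := congrArg (fun f : K →+* ℂ => (f a).im) h
    simpa using this
  · have := congrArg (fun f : K →+* ℂ => (f a).im) h
    simpa using this

theorem FINA_K0 (h2 : Module.finrank ℚ K = 2) {σ₂ : K →+* ℝ} (hσ : σ₂ ≠ algebraMap K ℝ) :
    FINA (K0 K) := by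
  have h0 : FINA (rs (⊥ : IntermediateField ℚ ℝ)) := by
    have : rs (⊥ : IntermediateField ℚ ℝ) = ⊥ := by ext x; rfl
    rw [this]; exact FINA_bot
  have hrs : rs (K0 K) = K0 K := by ext x; rfl
  have hab := abel_of_quad (K0 K) (finrank_K0 h2)
  have h := chain h0 2 (K0 K) (finrank_K0 h2) ⟨1, rfl⟩ (by rw [hrs]; infer_instance)
    (by rw [hrs]; exact (TR_K0 h2 hσ).tinf)
  rwa [hrs] at h

end

end Pool.Agent.STb
end

section

/-!
# Local squares in towers
-/

set_option linter.unusedSectionVars false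

open NumberField IsDedekindDomain

namespace Pool.Agent.STc

open Pool.Agent.ST Pool.Agent.STb

section tow

variable {A B : Type*} [Field A] [NumberField A] [Field B] [NumberField B] [Algebra A B]

instance liesOver_und (w : PrI B) : w.asIdeal.LiesOver (und A w).asIdeal := ⟨rfl⟩

lemma val_und (w : PrI B) (x : A) : w.valuation B (algebraMap A B x) =
    (und A w).valuation A x ^ ((und A w).asIdeal.ramificationIdx' w.asIdeal) :=
  (HeightOneSpectrum.valuation_liesOver B (und A w) w x).symm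

lemma ram_ne_zero (w : PrI B) : (und A w).asIdeal.ramificationIdx' w.asIdeal ≠ 0 := by
  intro h
  have h1 := val_und (A := A) w (0 : A)
  rw [h, map_zero, map_zero, pow_zero] at h1
  exact zero_ne_one h1

lemma ram_eq_one (w : PrI B) (hun : Algebra.IsUnramifiedAt (𝓞 A) w.asIdeal) :
    (und A w).asIdeal.ramificationIdx' w.asIdeal = 1 := by
  rw [Ideal.ramificationIdx'_eq_ramificationIdx _ _ (und A w).ne_bot]
  exact Ideal.ramificationIdx_eq_one_of_isUnramifiedAt

lemma val_und_unr (w : PrI B) (hun : Algebra.IsUnramifiedAt (𝓞 A) w.asIdeal) (x : A) :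
    w.valuation B (algebraMap A B x) = (und A w).valuation A x := by
  rw [val_und, ram_eq_one w hun, pow_one]

lemma val_lt_one_und {w : PrI B} {x : A} (h : (und A w).valuation A x < 1) :
    w.valuation B (algebraMap A B x) < 1 := by
  rw [val_und]
  exact pow_lt_one₀ zero_le h (ram_ne_zero w)

lemma val_eq_one_und {w : PrI B} {x : A} (h : (und A w).valuation A x = 1) :
    w.valuation B (algebraMap A B x) = 1 := by
  rw [val_und, h, one_pow]

lemma LSq.up {w : PrI B} {x : A} (h : LSq (und A w) x) : LSq w (algebraMap A B x) := by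
  obtain ⟨y, hy⟩ := h
  refine ⟨algebraMap A B y, ?_⟩
  have h1 := val_lt_one_und (B := B) hy
  rwa [map_sub, map_mul, map_pow, map_one] at h1

lemma sqAt_up {w : PrI B} {x : A} (h : SqAt (und A w) x) : SqAt w (algebraMap A B x) := by
  obtain ⟨y, hy⟩ := h
  refine ⟨algebraMap A B y, ?_⟩
  have h1 := val_eq_one_und (B := B) hy
  rwa [map_mul, map_pow] at h1

lemma sqAt_zero_iff {M : Type*} [Field M] [NumberField M] {P : PrI M} : ¬ SqAt P (0 : M) := by
  rintro ⟨y, hy⟩
  rw [zero_mul, map_zero] at hy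
  exact zero_ne_one hy

lemma sqAt_iff_unr (w : PrI B) (hun : Algebra.IsUnramifiedAt (𝓞 A) w.asIdeal) (x : A) :
    SqAt w (algebraMap A B x) ↔ SqAt (und A w) x := by
  refine ⟨fun h => ?_, sqAt_up⟩
  by_cases hx : x = 0
  · rw [hx, map_zero] at h
    exact absurd h sqAt_zero_iff
  obtain ⟨a, ha⟩ := exists_exp (P := und A w) hx
  have h1 := val_und_unr w hun x
  rw [ha] at h1
  rw [sqAt_iff ha]
  rwa [sqAt_iff h1] at h

/-- approximation by integers -/
lemma exists_int_approx {M : Type*} [Field M] [NumberField M] (P : PrI M) {x : M}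
    (hx : P.valuation M x ≤ 1) : ∃ z : 𝓞 M, P.valuation M (x - z) < 1 := by
  obtain ⟨a, ha⟩ := P.exists_valuation_sub_lt_of_integer hx 1
  refine ⟨a, ?_⟩
  rw [Valuation.map_sub_swap]
  simpa using ha

/-- equality of residue fields -/
lemma exists_res (w : PrI B) (hpn : pn w = pn (und A w)) (z : 𝓞 B) :
    ∃ a : 𝓞 A, z - algebraMap (𝓞 A) (𝓞 B) a ∈ w.asIdeal := by
  have : Finite (𝓞 B ⧸ w.asIdeal) := Ideal.finiteQuotientOfFreeOfNeBot w.asIdeal w.ne_bot
  let f : 𝓞 A ⧸ (und A w).asIdeal →+* 𝓞 B ⧸ w.asIdeal :=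
    Ideal.quotientMap w.asIdeal (algebraMap (𝓞 A) (𝓞 B)) le_rfl
  have hinj : Function.Injective f := Ideal.quotientMap_injective' le_rfl
  have hcard : Nat.card (𝓞 A ⧸ (und A w).asIdeal) = Nat.card (𝓞 B ⧸ w.asIdeal) := by
    have h1 := hpn
    unfold pn at h1
    rw [Ideal.absNorm_apply, Ideal.absNorm_apply, Submodule.cardQuot_apply,
      Submodule.cardQuot_apply] at h1
    exact h1.symm
  have hbij : Function.Bijective f :=
    (Nat.bijective_iff_injective_and_card f).2 ⟨hinj, hcard⟩
  obtain ⟨a, ha⟩ := hbij.2 (Ideal.Quotient.mk _ z)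
  obtain ⟨a, rfl⟩ := Ideal.Quotient.mk_surjective a
  refine ⟨a, ?_⟩
  rw [← Ideal.Quotient.eq]
  rw [← ha]
  rfl

/-- Descent of local squares at completely split primes. -/
lemma LSq.down {w : PrI B} (hun : Algebra.IsUnramifiedAt (𝓞 A) w.asIdeal)
    (hpn : pn w = pn (und A w)) {x : A} (h : LSq w (algebraMap A B x)) : LSq (und A w) x := by
  obtain ⟨y, hy⟩ := h
  have hxy : w.valuation B (algebraMap A B x * y ^ 2) = 1 := by
    have h2 : algebraMap A B x * y ^ 2 = (algebraMap A B x * y ^ 2 - 1) + 1 := by ring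
    rw [h2, Valuation.map_add_eq_of_lt_right _ (by rwa [map_one]), map_one]
  have hy0 : y ≠ 0 := by
    rintro rfl
    rw [zero_pow (by norm_num), mul_zero, map_zero] at hxy
    exact zero_ne_one hxy
  obtain ⟨a, ha⟩ := exists_exp (P := w) hy0
  obtain ⟨π, hπ⟩ := (und A w).valuation_surjective A (WithZero.exp a)
  have hπ0 : π ≠ 0 := by
    rintro rfl
    rw [map_zero] at hπ
    exact WithZero.exp_ne_zero hπ.symm
  have hπ' : algebraMap A B π ≠ 0 := by simpa using hπ0
  have hwπ : w.valuation B (algebraMap A B π) = WithZero.exp a := by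
    rw [val_und_unr w hun, hπ]
  set y' := y / algebraMap A B π with hy'
  have hvy' : w.valuation B y' = 1 := by
    rw [hy', map_div₀, ha, hwπ, div_self WithZero.exp_ne_zero]
  obtain ⟨z, hz⟩ := exists_int_approx w hvy'.le
  obtain ⟨c, hc⟩ := exists_res w hpn z
  have hc' : w.valuation B ((z : B) - algebraMap A B (c : A)) < 1 := by
    have h5 := (w.valuation_lt_one_iff_mem (K := B) _).2 hc
    have h6 : algebraMap (𝓞 B) B (z - algebraMap (𝓞 A) (𝓞 B) c) =
      (z : B) - algebraMap A B (c : A) := map_sub _ _ _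
    exact h6 ▸ h5
  have hyc : w.valuation B (y' - algebraMap A B (c : A)) < 1 := by
    have : y' - algebraMap A B (c : A) = (y' - z) + (z - algebraMap A B (c : A)) := by ring
    rw [this]
    exact Valuation.map_add_lt _ hz hc'
  have hc1 : w.valuation B (algebraMap A B (c : A)) ≤ 1 := by
    have : algebraMap A B (c : A) = y' - (y' - algebraMap A B (c : A)) := by ring
    rw [this]
    exact (Valuation.map_sub _ _ _).trans (max_le hvy'.le hyc.le)
  refine ⟨π * c, ?_⟩
  rw [← val_und_unr w hun]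
  have e1 : algebraMap A B (x * (π * c) ^ 2 - 1) = (algebraMap A B x * y ^ 2 - 1) -
      (algebraMap A B x * (algebraMap A B π) ^ 2) * ((y' - algebraMap A B (c : A)) *
        (y' + algebraMap A B (c : A))) := by
    rw [map_sub, map_mul, map_pow, map_mul, map_one, hy']
    field_simp
    ring
  rw [e1]
  refine (Valuation.map_sub _ _ _).trans_lt (max_lt hy ?_)
  rw [map_mul]
  have h3 : w.valuation B (algebraMap A B x * algebraMap A B π ^ 2) = 1 := by
    have : algebraMap A B x * algebraMap A B π ^ 2 = algebraMap A B x * y ^ 2 * (y'⁻¹) ^ 2 := by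
      rw [hy']; field_simp
    rw [this, map_mul, hxy, map_pow, map_inv₀, hvy', inv_one, one_pow, one_mul]
  rw [h3, one_mul, map_mul]
  refine mul_lt_one_of_lt_of_le hyc ?_
  exact (Valuation.map_add _ _ _).trans (max_le hvy'.le hc1)

lemma lsq_iff {w : PrI B} (hun : Algebra.IsUnramifiedAt (𝓞 A) w.asIdeal)
    (hpn : pn w = pn (und A w)) {x : A} : LSq w (algebraMap A B x) ↔ LSq (und A w) x :=
  ⟨LSq.down hun hpn, LSq.up⟩

end tow

end Pool.Agent.STc
end

section

/-!
# Fine primes
-/

open NumberField IsDedekindDomain nonZeroDivisors IntermediateField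

namespace Pool.Agent.STc

open Pool.Agent.ST Pool.Agent.STb

variable {K : Type*} [Field K] [NumberField K] [Algebra K ℝ]

/-- `K(θ)`, `θ ^ 2 = d`, is a quadratic extension of `K` inside the ray class field of modulus `m q ∞₂`, ramified at
`q`, such that the primes `(β)`, `β ≡ 1 mod m`, `σ₂ β > 0`, split if `β` is a square modulo `q`. -/
structure Fine (σ₂ : K →+* ℝ) (m : Ideal (𝓞 K)) (q : PrI K) (θ : ℝ) (d : K) : Prop where
  ndvd : ¬ q.asIdeal ∣ m
  ne : d ≠ 0
  sq : θ ^ 2 = algebraMap K ℝ d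
  odd : ¬ SqAt q d
  even : ∀ P : PrI K, ¬ P.asIdeal ∣ m → P ≠ q → SqAt P d
  mem : ∀ (H : IntermediateField K ℝ) (Art : RayClassGroup σ₂ (m * q.asIdeal) ≃* (H ≃ₐ[K] H)),
    IsRayClassField σ₂ (m * q.asIdeal) H Art → θ ∈ H
  spl : ∀ P : PrI K, ¬ P.asIdeal ∣ m → P ≠ q → ∀ β : 𝓞 K, P.asIdeal = Ideal.span {β} → β - 1 ∈ m →
    0 < σ₂ (β : K) → LSq q (β : K) → LSq P d

end Pool.Agent.STc
end

section

/-!
# Upper Dirichlet density, and primes with nontrivial Frobenius outside of a set of small density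
-/

open NumberField Filter Topology Ideal nonZeroDivisors IsDedekindDomain

namespace Pool.Agent.ST

section dens

variable {K : Type*} [Field K] [NumberField K]

/-- `∑ N q ^ (-s)` over `q ∈ B` is at most `c log (1 / (s - 1))` up to a bounded error. -/
def DensLe (B : Set (PrI K)) (c : ℝ) : Prop :=
  ∃ C : ℝ, ∀ s : ℝ, 1 < s → s < 2 → ∀ T : Finset (PrI K), (∀ q ∈ T, q ∈ B) →
    ∑ q ∈ T, px s q ≤ c * Real.log (1 / (s - 1)) + C

lemma log_inv_nonneg {s : ℝ} (h1 : 1 < s) (h2 : s < 2) : 0 ≤ Real.log (1 / (s - 1)) := by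
  apply Real.log_nonneg
  rw [le_div_iff₀ (by linarith)]
  linarith

lemma DensLe.mono {B B' : Set (PrI K)} {c : ℝ} (h : B ⊆ B') (hB : DensLe B' c) : DensLe B c := by
  obtain ⟨C, hC⟩ := hB
  exact ⟨C, fun s h1 h2 T hT => hC s h1 h2 T fun q hq => h (hT q hq)⟩

lemma DensLe.weaken {B : Set (PrI K)} {c c' : ℝ} (hB : DensLe B c) (h : c ≤ c') :
    DensLe B c' := by
  obtain ⟨C, hC⟩ := hB
  refine ⟨C, fun s h1 h2 T hT => (hC s h1 h2 T hT).trans ?_⟩
  have := mul_le_mul_of_nonneg_right h (log_inv_nonneg h1 h2)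
  linarith

lemma DensLe.union {B B' : Set (PrI K)} {c c' : ℝ} (hB : DensLe B c) (hB' : DensLe B' c') :
    DensLe (B ∪ B') (c + c') := by
  classical
  obtain ⟨C, hC⟩ := hB
  obtain ⟨C', hC'⟩ := hB'
  refine ⟨C + C', fun s h1 h2 T hT => ?_⟩
  have e := Finset.sum_filter_add_sum_filter_not T (fun q => q ∈ B) (fun q => px s q)
  rw [← e]
  have e1 := hC s h1 h2 (T.filter (fun q => q ∈ B)) (fun q hq => (Finset.mem_filter.1 hq).2)
  have e2 := hC' s h1 h2 (T.filter (fun q => ¬ q ∈ B)) (fun q hq => by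
    obtain ⟨h3, h4⟩ := Finset.mem_filter.1 hq
    exact (hT q h3).resolve_left h4)
  linarith

lemma px_anti {s t : ℝ} (h : s ≤ t) (P : PrI K) : px t P ≤ px s P := by
  have h2 : (2 : ℝ) ≤ pn P := by exact_mod_cast two_le_pn P
  unfold px
  exact Real.rpow_le_rpow_of_exponent_le (by linarith) (by linarith)

lemma DensLe.of_finite {B : Set (PrI K)} (hB : B.Finite) : DensLe B 0 := by
  classical
  refine ⟨∑ q ∈ hB.toFinset, px 1 q, fun s h1 _ T hT => ?_⟩
  rw [zero_mul, zero_add]
  calc ∑ q ∈ T, px s q ≤ ∑ q ∈ hB.toFinset, px s q :=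
        Finset.sum_le_sum_of_subset_of_nonneg (fun q hq => hB.mem_toFinset.2 (hT q hq))
          (fun q _ _ => (px_pos s q).le)
    _ ≤ ∑ q ∈ hB.toFinset, px 1 q := Finset.sum_le_sum fun q _ => px_anti h1.le q

lemma DensLe.union_finite {B B' : Set (PrI K)} {c : ℝ} (hB : DensLe B c) (hB' : B'.Finite) :
    DensLe (B ∪ B') c := by
  have := hB.union (DensLe.of_finite hB')
  rwa [add_zero] at this

lemma DensLe.tsum_le {B : Set (PrI K)} {c : ℝ} (hB : DensLe B c) :
    ∃ C : ℝ, ∀ s : ℝ, 1 < s → s < 2 →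
      ∑' q, B.indicator (px s) q ≤ c * Real.log (1 / (s - 1)) + C := by
  classical
  obtain ⟨C, hC⟩ := hB
  refine ⟨C, fun s h1 h2 => ?_⟩
  apply ((summable_px h1).indicator B).tsum_le_of_sum_le
  intro T
  have e : ∑ q ∈ T, B.indicator (px s) q = ∑ q ∈ T.filter (fun q => q ∈ B), px s q := by
    rw [Finset.sum_filter]
    apply Finset.sum_congr rfl
    intro q _
    rw [Set.indicator_apply]
  rw [e]
  exact hC s h1 h2 _ (fun q hq => (Finset.mem_filter.1 hq).2)

end dens

section FZ

variable {K L : Type*} [Field K] [NumberField K] [Field L] [NumberField L] [Algebra K L]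
  [IsGalois K L]

/-- Existence of primes with nontrivial Frobenius acting trivially on a subfield of degree at
most `2`, outside of a set of upper density less than `1 / 4`. -/
theorem exists_frob_dens (F : IntermediateField K L) [IsGalois K F] (hF : F ≠ ⊤)
    (hF2 : Module.finrank K F ≤ 2) (B : Set (PrI K)) {c : ℝ} (hc : c < 1 / 4) (hB : DensLe B c) :
    ∃ P : PrI L, und K P ∉ B ∧ Algebra.IsUnramifiedAt (𝓞 K) P.asIdeal ∧
      ∃ σ : L ≃ₐ[K] L, IsFrob K P σ ∧ (∀ x ∈ F, σ x = x) ∧ σ ≠ 1 := by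
  by_contra hcon
  push Not at hcon
  set R : Set (PrI L) := {P : PrI L | ¬ Algebra.IsUnramifiedAt (𝓞 K) P.asIdeal} with hR
  set B' : Set (PrI K) := B ∪ und K '' R with hB'
  have hB'd : DensLe B' c := hB.union_finite ((finite_ramified K).image _)
  set T : Set (PrI K) := {p | p ∉ B' ∧ ∃ q : PrI F, und K q = p ∧ pn q = pn p} with hT
  have claim1 : ∀ p ∈ T, (ovr K (E := L) p).ncard = Module.finrank K L ∧
      ∀ P : PrI L, und K P = p → pn P = pn p := by
    rintro p ⟨hp1, q, hq1, hq2⟩
    have key : ∀ P : PrI L, und K P = p → pn P = pn p ∧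
        Algebra.IsUnramifiedAt (𝓞 K) P.asIdeal := by
      intro P hP
      have hun : Algebra.IsUnramifiedAt (𝓞 K) P.asIdeal := by
        by_contra hn
        exact hp1 (Or.inr ⟨P, hn, hP⟩)
      refine ⟨?_, hun⟩
      obtain ⟨σ, hσ⟩ := exists_isFrob (K := K) P
      have h1 : und K (und F P) = p := by rw [und_und, hP]
      have h2 : pn (und F P) = pn (und K (und F P)) := by
        rw [h1, ← hq2]
        exact pn_eq_of_und_eq K (by rw [h1, hq1])
      have : Algebra.IsUnramifiedAt (𝓞 K) (und F P).asIdeal := unramified_und P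
      have h3 : IsFrob K (und F P) (σ.restrictNormal F) :=
        isFrob_und (fun x => σ.restrictNormal_commutes F x) hσ
      have h4 : σ.restrictNormal F = 1 := isFrob_unique h3 (isFrob_one_of_pn_eq h2)
      have h5 : ∀ x ∈ F, σ x = x := by
        intro x hx
        have := σ.restrictNormal_commutes F ⟨x, hx⟩
        rw [h4] at this
        exact this.symm
      have h6 : σ = 1 := hcon P (fun h => hp1 (Or.inl (hP ▸ h))) hun σ hσ h5
      rw [h6] at hσ
      rw [pn_eq_of_isFrob_one hσ, hP]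
    refine ⟨?_, fun P hP => (key P hP).1⟩
    obtain ⟨P, hP⟩ := exists_ovr (L := L) p
    have := (key P hP).2
    have := ncard_ovr_eq K (P := P) (by rw [(key P hP).1, hP])
    rwa [hP] at this
  -- upper bound for the prime sum of F
  set g : ℝ → PrI K → ℝ := fun s p => T.indicator (px s) p + px 2 p + B'.indicator (px s) p
    with hg
  have hsumB : ∀ s : ℝ, 1 < s → Summable (B'.indicator (px s) : PrI K → ℝ) :=
    fun s hs => (summable_px hs).indicator B'
  have hsumT : ∀ s : ℝ, 1 < s → Summable (T.indicator (px s) : PrI K → ℝ) :=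
    fun s hs => (summable_px hs).indicator T
  have hg0 : ∀ s p, 0 ≤ g s p := by
    intro s p
    have h1 : 0 ≤ T.indicator (px s) p := Set.indicator_nonneg (fun x _ => (px_pos s x).le) p
    have h2 : (0 : ℝ) ≤ B'.indicator (px s) p :=
      Set.indicator_nonneg (fun x _ => (px_pos s x).le) p
    have h3 := (px_pos 2 p).le
    simp only [hg]
    linarith
  have hgs : ∀ s : ℝ, 1 < s → Summable (g s) := fun s hs =>
    ((hsumT s hs).add (summable_px one_lt_two)).add (hsumB s hs)
  have claim2 : ∀ s : ℝ, 1 < s → ∀ q : PrI F, px s q ≤ g s (und K q) := by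
    intro s hs q
    have h1 : 0 ≤ T.indicator (px s) (und K q) :=
      Set.indicator_nonneg (fun x _ => (px_pos s x).le) _
    have h2 : (0 : ℝ) ≤ B'.indicator (px s) (und K q) :=
      Set.indicator_nonneg (fun x _ => (px_pos s x).le) _
    have h3 := (px_pos 2 (und K q)).le
    simp only [hg]
    by_cases hb : und K q ∈ B'
    · have h4 : px s q ≤ px s (und K q) := by
        have h7 := two_le_pn (und K q)
        have h8 : (2 : ℝ) ≤ (pn (und K q) : ℝ) := by exact_mod_cast h7
        have h9 : (pn (und K q) : ℝ) ≤ (pn q : ℝ) := by exact_mod_cast pn_und_le K q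
        unfold px
        apply Real.rpow_le_rpow_of_nonpos (by positivity) h9 (by linarith)
      rw [Set.indicator_of_mem hb]
      linarith
    · by_cases hq : pn q = pn (und K q)
      · have h5 : und K q ∈ T := ⟨hb, q, rfl, hq⟩
        rw [Set.indicator_of_mem h5]
        have h6 : px s q = px s (und K q) := by rw [px, px, hq]
        linarith
      · have h5 := pn_sq_le K hq
        have h6 : px s q ≤ px 2 (und K q) := by
          have h7 := two_le_pn (und K q)
          have h8 : (2 : ℝ) ≤ (pn (und K q) : ℝ) := by exact_mod_cast h7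
          have h9 : ((pn (und K q) : ℝ)) ^ 2 ≤ (pn q : ℝ) := by exact_mod_cast h5
          unfold px
          calc (pn q : ℝ) ^ (-s) ≤ ((pn (und K q) : ℝ) ^ 2) ^ (-s) := by
                apply Real.rpow_le_rpow_of_nonpos (by positivity) h9 (by linarith)
            _ = (pn (und K q) : ℝ) ^ (-(2 * s)) := by
                rw [← Real.rpow_natCast, ← Real.rpow_mul (by positivity)]
                congr 1
                push_cast
                ring
            _ ≤ (pn (und K q) : ℝ) ^ (-2 : ℝ) := by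
                apply Real.rpow_le_rpow_of_exponent_le (by linarith) (by linarith)
        linarith
  have up : ∀ s : ℝ, 1 < s → primeSum F s ≤ Module.finrank K F *
      (∑' p, T.indicator (px s) p + primeSum K 2 + ∑' p, B'.indicator (px s) p) := by
    intro s hs
    have h1 := primeSum_le_of K (E := F) (g s) (hg0 s) (hgs s hs) (claim2 s hs)
    have h2 : ∑' p, g s p = ∑' p, T.indicator (px s) p + primeSum K 2 +
        ∑' p, B'.indicator (px s) p := by
      simp only [hg]
      rw [((hsumT s hs).add (summable_px one_lt_two)).tsum_add (hsumB s hs),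
        (hsumT s hs).tsum_add (summable_px one_lt_two)]
      rfl
    rwa [h2] at h1
  have low : ∀ s : ℝ, 1 < s → Module.finrank K L * ∑' p, T.indicator (px s) p ≤ primeSum L s :=
    fun s hs => le_primeSum_of K hs T claim1
  obtain ⟨CL, hCL⟩ := primeSum_asymp L
  obtain ⟨CF, hCF⟩ := primeSum_asymp F
  obtain ⟨Cβ, hCβ⟩ := hB'd.tsum_le
  -- degrees
  have hdeg : 2 * Module.finrank K F ≤ Module.finrank K L := by
    have h1 := Module.finrank_mul_finrank K F L
    have h2 : Module.finrank F L ≠ 1 := by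
      intro h3
      apply hF
      exact IntermediateField.finrank_eq_one_iff_eq_top.1 h3
    have h3 : 0 < Module.finrank F L := Module.finrank_pos
    have h4 : 2 ≤ Module.finrank F L := by omega
    rw [← h1, mul_comm]
    exact Nat.mul_le_mul_left _ h4
  set a : ℝ := (Module.finrank K F : ℝ) with ha
  set b : ℝ := (Module.finrank K L : ℝ) with hb
  have ha1 : 1 ≤ a := by
    rw [ha]
    exact_mod_cast (Module.finrank_pos : 0 < Module.finrank K F)
  have ha2 : a ≤ 2 := by rw [ha]; exact_mod_cast hF2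
  have hab : 2 * a ≤ b := by rw [ha, hb]; exact_mod_cast hdeg
  set δ : ℝ := 1 / 2 - a * c with hδ
  have hδ0 : 0 < δ := by
    rw [hδ]
    rcases le_or_gt 0 c with h | h
    · nlinarith
    · nlinarith
  -- choose s
  have hlog : Tendsto (fun s : ℝ => -Real.log (s - 1)) (𝓝[>] 1) atTop := by
    have h1 : Tendsto (fun s : ℝ => s - 1) (𝓝[>] 1) (𝓝[>] 0) := by
      have h2 : Tendsto (fun s : ℝ => s - 1) (𝓝 1) (𝓝 0) := by
        have h3 : Continuous fun s : ℝ => s - 1 := by fun_prop
        have h4 := h3.tendsto 1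
        rwa [sub_self] at h4
      refine tendsto_nhdsWithin_iff.2 ⟨h2.mono_left nhdsWithin_le_nhds, ?_⟩
      filter_upwards [self_mem_nhdsWithin] with s hs
      have : (1 : ℝ) < s := hs
      simpa using this
    exact tendsto_neg_atBot_atTop.comp (Real.tendsto_log_nhdsGT_zero.comp h1)
  have hs2 : ∀ᶠ s in 𝓝[>] (1 : ℝ), s < 2 :=
    mem_nhdsWithin_of_mem_nhds (Iio_mem_nhds (by norm_num))
  have hev := ((hlog.eventually_gt_atTop
    ((CL / 2 + CF + a * primeSum K 2 + a * Cβ) / δ)).and hs2).and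
    ((hCL.and hCF).and self_mem_nhdsWithin)
  obtain ⟨s, ⟨hs1, hs2'⟩, ⟨hs2, hs3⟩, hs4⟩ := hev.exists
  have hs5 : (1 : ℝ) < s := hs4
  have e1 := up s hs5
  have e2 := low s hs5
  have e4 := hCβ s hs5 hs2'
  have e5 : Real.log (1 / (s - 1)) = -Real.log (s - 1) := by
    rw [one_div, Real.log_inv]
  rw [e5] at e4
  rw [abs_le] at hs2 hs3
  set S : ℝ := ∑' p, T.indicator (px s) p with hS
  have hS0 : 0 ≤ S := tsum_nonneg fun p => Set.indicator_nonneg (fun x _ => (px_pos s x).le) p
  have e3 : 2 * a * S ≤ b * S := mul_le_mul_of_nonneg_right hab hS0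
  set ℓ : ℝ := -Real.log (s - 1) with hℓ
  rw [div_lt_iff₀ hδ0] at hs1
  have e6 : a * ∑' p, B'.indicator (px s) p ≤ a * (c * ℓ + Cβ) :=
    mul_le_mul_of_nonneg_left e4 (by linarith)
  have e7 : ℓ * δ = ℓ / 2 - a * (c * ℓ) := by rw [hδ]; ring
  rw [e7] at hs1
  nlinarith [hs2.2, hs3.1]

end FZ

end Pool.Agent.ST
end
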